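import Pool.Agent.Helper81.AT.Core

/-!
Project AT (MP_b8862a_ag): the core theorems with the exact exceptional case: simple eigenvalues in an arithmetic progression.
-/

set_option linter.unusedSectionVars false

open Module LieModule LieAlgebra LieAlgebra.IsKilling AddMonoidAlgebra MTP.MF PF PF.W PF.L TF PW PX
open Pool.Agent.Helper54.MT (semisimple_of_diag exists_cartan_end killing_of)

attribute [local instance 100] LieRing.ofAssociativeRing

namespace AT

/-- The eigenvalues are simple and form an arithmetic progression. -/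
def Prog {V : Type*} [AddCommGroup V] [Module ℂ V] (h : Module.End ℂ V) : Prop :=
  (∀ c : ℂ, finrank ℂ (Module.End.eigenspace h c) ≤ 1) ∧
    ∃ a d : ℂ, ∀ c : ℂ, 0 < finrank ℂ (Module.End.eigenspace h c) ↔ ∃ i : ℕ, i < finrank ℂ V ∧ c = a + i * d

theorem prog_of_typeA {V : Type*} [AddCommGroup V] [Module ℂ V] [FiniteDimensional ℂ V]
    {L : LieSubalgebra ℂ (Module.End ℂ V)} [IsKilling ℂ L] {H : LieSubalgebra ℂ L} [H.IsCartanSubalgebra]
    {I : Type*} [Fintype I] (B : WB (V := V) H I) [Nonempty I]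
    (hirr : ∀ W : Submodule ℂ V, (∀ x : L, ∀ u ∈ W, ⁅x, u⁆ ∈ W) → W = ⊥ ∨ W = ⊤) (hA : TypeA (PF.C.PhiS H))
    (y : H) (hy : y ≠ 0) : Prog ((y : L) : Module.End ℂ V) := by
  classical
  refine ⟨fun c => PF.C.finrank_eig B y (fun i j hij => (PF.C.typeA_simple B hirr hA).2 _ hy hij) c, ?_⟩
  obtain ⟨α, -, hline, m, hm, κ, hκ⟩ := PF.C.typeA B hirr hA
  obtain ⟨r, hr⟩ := hline y
  have hcard : finrank ℂ V = m + 1 := by
    rw [Module.finrank_eq_card_basis B.v, hm]
  refine ⟨r * m, r * (-2), fun c => ?_⟩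
  have hw : ∀ i, B.w i y = r * m + ((κ i : ℕ) : ℂ) * (r * (-2)) := by
    intro i
    rw [hr, map_smul, smul_eq_mul, hκ]
    ring
  constructor
  · intro hpos
    obtain ⟨u, hu, hu0⟩ := Submodule.exists_mem_ne_zero_of_ne_bot
      (p := Module.End.eigenspace ((y : L) : Module.End ℂ V) c) (by
        intro h0
        rw [h0, finrank_bot] at hpos
        exact lt_irrefl _ hpos)
    have h1 : B.v.repr u ≠ 0 := fun h => hu0 (B.v.repr.map_eq_zero_iff.mp h)
    obtain ⟨i, hi⟩ := Finsupp.ne_iff.mp h1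
    have h2 : B.w i y = c := B.coord (Module.End.mem_eigenspace_iff.1 hu) hi
    refine ⟨κ i, ?_, ?_⟩
    · rw [hcard]
      exact (κ i).isLt
    · rw [← h2, hw]
  · rintro ⟨i, hi, rfl⟩
    rw [hcard] at hi
    obtain ⟨k, hk⟩ := κ.surjective ⟨i, hi⟩
    have h1 : B.v k ∈ Module.End.eigenspace ((y : L) : Module.End ℂ V) (r * m + (i : ℂ) * (r * (-2))) := by
      rw [Module.End.mem_eigenspace_iff]
      have h2 := B.lie_v k y
      rw [hw k, hk] at h2
      exact h2
    have h3 : Nontrivial (Module.End.eigenspace ((y : L) : Module.End ℂ V) (r * m + (i : ℂ) * (r * (-2)))) :=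
      ⟨⟨⟨B.v k, h1⟩, 0, fun h => B.v.ne_zero k (congrArg Subtype.val h)⟩⟩
    exact finrank_pos

/-- **The core theorem.** -/
theorem core3p {V : Type} [AddCommGroup V] [Module ℂ V] [FiniteDimensional ℂ V] {ω : LinearMap.BilinForm ℂ V}
    (hω : ω.IsSymm ∨ ω.IsAlt) (hnd : ω.Nondegenerate) {L : LieSubalgebra ℂ (Module.End ℂ V)} [IsSimple ℂ L]
    (hirr : ∀ W : Submodule ℂ V, (∀ x ∈ L, ∀ u ∈ W, x u ∈ W) → W = ⊥ ∨ W = ⊤)
    (hsk : ∀ x ∈ L, ∀ u v, ω (x u) v = -ω u (x v)) (hE : finrank ℂ V ∉ Ex3) :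
    (∀ x : Module.End ℂ V, (∀ u v, ω (x u) v = -ω u (x v)) → x ∈ L) ∨
      ∀ h ∈ L, h ≠ 0 → (⨆ c : ℂ, Module.End.eigenspace h c) = ⊤ → Prog h := by
  classical
  by_cases hfull : ∀ x : Module.End ℂ V, (∀ u v, ω (x u) v = -ω u (x v)) → x ∈ L
  · exact Or.inl hfull
  right
  intro y hy hy0 hdiag
  have hVn : Nontrivial V := by
    by_contra hcon
    rw [not_nontrivial_iff_subsingleton] at hcon
    apply hy0
    ext u
    exact Subsingleton.elim _ _
  have hS : MTP.IrrSymp ω L.toSubmodule := ⟨fun x hx y hy => L.lie_mem hx hy, fun x hx => hsk x hx, hirr⟩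
  have hk : IsKilling ℂ L := killing_of hnd hS
  obtain ⟨H, hH, hyH⟩ := exists_cartan_end (L := L) ⟨y, hy⟩ (semisimple_of_diag hdiag)
  have hirrR : (rootSystem H).IsIrreducible := inferInstance
  have hne : Nonempty H.root := by
    by_contra hcon
    rw [not_nonempty_iff] at hcon
    have hN : Nontrivial H := RootPairing.IsIrreducible.nontrivial' (rootSystem H)
    have h1 : (⊤ : Submodule ℂ H) = ⊥ := by
      have h2 : (rootSystem H).corootSpan ℂ = ⊤ := RootPairing.IsRootSystem.span_coroot_eq_top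
      rw [← h2, RootPairing.corootSpan, Set.range_eq_empty, Submodule.span_empty]
    exact bot_ne_top h1.symm
  have hirr' : ∀ W : Submodule ℂ V, (∀ x : L, ∀ u ∈ W, ⁅x, u⁆ ∈ W) → W = ⊥ ∨ W = ⊤ :=
    fun W hW => hirr W fun z hz w hw => hW ⟨z, hz⟩ w hw
  have hsk' : ∀ (x : L) (u v : V), ω ⁅x, u⁆ v = - ω u ⁅x, v⁆ := by
    intro x u v
    exact hsk x x.2 u v
  have hfaith : ∀ x : L, (∀ u : V, ⁅x, u⁆ = 0) → x = 0 := by
    intro x hx
    apply Subtype.ext
    ext u
    exact hx u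
  obtain ⟨m, ⟨B⟩⟩ := exists_WB (V := V) (H := H) hirr'
  have hcard : Fintype.card (Fin m) = finrank ℂ V := by
    rw [Module.finrank_eq_card_basis B.v]
  have hI : Nonempty (Fin m) := by
    rw [← Fintype.card_pos_iff, hcard]
    exact finrank_pos
  obtain ⟨l, v, hwd⟩ := exists_wd3 B hirr' hfaith hnd hsk'
  rw [hcard] at hwd
  have htri : TypeA (PF.CC.Ph (rootSystem H)) ∨ TypeB (PF.CC.Ph (rootSystem H)) (PF.CC.Xw B) ∨
      TypeD (PF.CC.Ph (rootSystem H)) (PF.CC.Xw B) := by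
    by_contra hcon
    push Not at hcon
    exact hE ⟨H.root, inferInstance, _, _, l, v, hwd, hcon.1, hcon.2.1, hcon.2.2⟩
  rcases htri with hA | hBD
  · rw [← PF.C.PhiS_eq] at hA
    have hy' : (⟨⟨y, hy⟩, hyH⟩ : H) ≠ 0 := by
      intro h
      apply hy0
      have := congrArg (fun z : H => ((z : L) : Module.End ℂ V)) h
      exact this
    exact prog_of_typeA B hirr' hA ⟨⟨y, hy⟩, hyH⟩ hy'
  · by_cases hA : TypeA (PF.CC.Ph (rootSystem H))
    · rw [← PF.C.PhiS_eq] at hA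
      have hy' : (⟨⟨y, hy⟩, hyH⟩ : H) ≠ 0 := by
        intro h
        apply hy0
        have := congrArg (fun z : H => ((z : L) : Module.End ℂ V)) h
        exact this
      exact prog_of_typeA B hirr' hA ⟨⟨y, hy⟩, hyH⟩ hy'
    · exfalso
      apply hfull
      intro x hx
      rcases hω with hsymm | halt
      · rcases PF.CC.choose_le B hirr' hnd hsk' hBD with h2 | h2
        · exact absurd h2 hA
        · rw [hcard] at h2
          exact PF.CC.full_of_le hsymm hnd L.toSubmodule (fun z hz => hsk z hz) h2 x hx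
      · rcases hBD with ht | ht
        · exfalso
          obtain ⟨N, y, hy, c, hc, hX, -⟩ := ht
          obtain ⟨i, hi⟩ := (PF.CC.mem_Xw B).1 ((hX 0).2 (Or.inl rfl))
          have h0 : B.w i = 0 := by
            apply PF.C.toE_inj (PF.C.intl_w B i) PF.C.intl_zero
            rw [toE_w, hi, PF.C.toE_zero]
          obtain ⟨b⟩ := RootPairing.nonempty_base (rootSystem H)
          obtain ⟨d, hd, hdodd⟩ := odd_rho B hirr' hnd halt hsk' b
          have h1 := hd i
          rw [h0, LinearMap.zero_apply] at h1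
          have h2 : d i = 0 := by exact_mod_cast h1.symm
          have h3 := hdodd i
          rw [h2] at h3
          exact absurd h3 (by decide)
        · rw [← XS_eq, ← PF.C.PhiS_eq] at ht
          exact PF.C.typeD_sp B hirr' ht hnd halt hsk' hx

/-- **The core theorem.** -/
theorem core4p {V : Type} [AddCommGroup V] [Module ℂ V] [FiniteDimensional ℂ V]
    {L : LieSubalgebra ℂ (Module.End ℂ V)} [IsSimple ℂ L]
    (hirr : ∀ W : Submodule ℂ V, (∀ x ∈ L, ∀ u ∈ W, x u ∈ W) → W = ⊥ ∨ W = ⊤)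
    (hE3 : finrank ℂ V ∉ Ex3) (hE4 : finrank ℂ V ∉ Ex4) :
    (∀ x : Module.End ℂ V, LinearMap.trace ℂ V x = 0 → x ∈ L) ∨
    (∃ ω : LinearMap.BilinForm ℂ V, (ω.IsSymm ∨ ω.IsAlt) ∧ ω.Nondegenerate ∧
      ∀ x : Module.End ℂ V, x ∈ L ↔ ∀ u v, ω (x u) v = -ω u (x v)) ∨
      ∀ h ∈ L, h ≠ 0 → (⨆ c : ℂ, Module.End.eigenspace h c) = ⊤ → Prog h := by
  classical
  by_cases hform : ∃ ω : LinearMap.BilinForm ℂ V, (ω.IsSymm ∨ ω.IsAlt) ∧ ω.Nondegenerate ∧
      ∀ x ∈ L, ∀ u v, ω (x u) v = -ω u (x v)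
  · obtain ⟨ω, hω, hnd, hsk⟩ := hform
    right
    rcases core3p hω hnd hirr hsk hE3 with h | h
    · exact Or.inl ⟨ω, hω, hnd, fun x => ⟨fun hx u v => hsk x hx u v, h x⟩⟩
    · exact Or.inr h
  by_cases hsl : ∀ x : Module.End ℂ V, LinearMap.trace ℂ V x = 0 → x ∈ L
  · exact Or.inl hsl
  right; right
  intro y hy hy0 hdiag
  have hVn : Nontrivial V := by
    by_contra hcon
    rw [not_nontrivial_iff_subsingleton] at hcon
    apply hy0
    ext u
    exact Subsingleton.elim _ _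
  have hk : IsKilling ℂ L := inferInstance
  obtain ⟨H, hH, hyH⟩ := exists_cartan_end (L := L) ⟨y, hy⟩ (semisimple_of_diag hdiag)
  have hirrR : (rootSystem H).IsIrreducible := inferInstance
  have hne : Nonempty H.root := by
    by_contra hcon
    rw [not_nonempty_iff] at hcon
    have hN : Nontrivial H := RootPairing.IsIrreducible.nontrivial' (rootSystem H)
    have h1 : (⊤ : Submodule ℂ H) = ⊥ := by
      have h2 : (rootSystem H).corootSpan ℂ = ⊤ := RootPairing.IsRootSystem.span_coroot_eq_top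
      rw [← h2, RootPairing.corootSpan, Set.range_eq_empty, Submodule.span_empty]
    exact bot_ne_top h1.symm
  have hirr' : ∀ W : Submodule ℂ V, (∀ x : L, ∀ u ∈ W, ⁅x, u⁆ ∈ W) → W = ⊥ ∨ W = ⊤ :=
    fun W hW => hirr W fun z hz w hw => hW ⟨z, hz⟩ w hw
  have hfaith : ∀ x : L, (∀ u : V, ⁅x, u⁆ = 0) → x = 0 := by
    intro x hx
    apply Subtype.ext
    ext u
    exact hx u
  obtain ⟨m, ⟨B⟩⟩ := exists_WB (V := V) (H := H) hirr'
  have hcard : Fintype.card (Fin m) = finrank ℂ V := by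
    rw [Module.finrank_eq_card_basis B.v]
  have hI : Nonempty (Fin m) := by
    rw [← Fintype.card_pos_iff, hcard]
    exact finrank_pos
  obtain ⟨l, v, hwd⟩ := exists_wd' B hirr' hfaith
  rw [hcard] at hwd
  have hneg : ∃ x ∈ PF.CC.Xw B, -x ∉ PF.CC.Xw B := by
    by_contra hcon
    push Not at hcon
    obtain ⟨ω, hω, hnd, hsk⟩ := exists_form B hirr' hcon
    exact hform ⟨ω, hω, hnd, fun x hx u v => hsk ⟨x, hx⟩ u v⟩
  by_cases hA : TypeA (PF.CC.Ph (rootSystem H))
  · rw [← PF.C.PhiS_eq] at hA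
    have hy' : (⟨⟨y, hy⟩, hyH⟩ : H) ≠ 0 := by
      intro h
      apply hy0
      have := congrArg (fun z : H => ((z : L) : Module.End ℂ V)) h
      exact this
    exact prog_of_typeA B hirr' hA ⟨⟨y, hy⟩, hyH⟩ hy'
  · exfalso
    by_cases hS : TypeS (PF.CC.Ph (rootSystem H)) (PF.CC.Xw B)
    · apply hsl
      intro x hx
      obtain ⟨z, hz⟩ := typeS_sl B hirr' hfaith hS x hx
      have : (z : Module.End ℂ V) = x := by
        ext u
        exact hz u
      rw [← this]
      exact z.2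
    · exact hE4 ⟨H.root, inferInstance, _, _, l, v, hwd, hneg, hA, hS⟩

end AT
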