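import Pool.Agent.Helper3.AT.DichA
import Pool.Agent.Helper90.AT.DichFr
import Pool.Agent.Helper59.AT.DimU
import Pool.Agent.Helper99.AT.Dt4
import Pool.Agent.Helper81.PX.Main3

/-!
Project AT (MP_b8862a_ag): the exceptional set for the modules which are not self-dual has `O(X^(2/3))` elements up to `X`.
-/

set_option linter.unusedSectionVars false

open Module PF TF PW PX

namespace AT

theorem Dt4.mono {M M' n : ℕ} (h : Dt4 M n) (hM : M ≤ M') : Dt4 M' n := by
  obtain ⟨r, N, f, b, h1, h2, h3, h4, h5⟩ := h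
  exact ⟨r, N, f, b, h1, h2.trans hM, h3.trans hM, fun a j => (h4 a j).trans (by omega), h5⟩

section sc

variable {E : Type*} [NormedAddCommGroup E] [InnerProductSpace ℝ E] {Φ X : Finset E} {c : ℝ} (hc : 0 < c)

include hc

theorem closure_sc {x : E} (hx : x ∈ AddSubgroup.closure (Φ : Set E)) :
    c • x ∈ AddSubgroup.closure ((PF.sc c Φ : Finset E) : Set E) := by
  induction hx using AddSubgroup.closure_induction with
  | mem y hy => exact AddSubgroup.subset_closure (Finset.mem_coe.2 ((smul_mem_sc hc).2 (Finset.mem_coe.1 hy)))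
  | zero => rw [smul_zero]; exact zero_mem _
  | add a b _ _ ha hb => rw [smul_add]; exact add_mem ha hb
  | neg a _ ha => rw [smul_neg]; exact neg_mem ha

theorem span_sc {x : E} (hx : x ∈ Submodule.span ℝ (Φ : Set E)) :
    c • x ∈ Submodule.span ℝ ((PF.sc c Φ : Finset E) : Set E) := by
  induction hx using Submodule.span_induction with
  | mem y hy => exact Submodule.subset_span (Finset.mem_coe.2 ((smul_mem_sc hc).2 (Finset.mem_coe.1 hy)))
  | zero => rw [smul_zero]; exact zero_mem _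
  | add a b _ _ ha hb => rw [smul_add]; exact add_mem ha hb
  | smul r a _ ha => rw [smul_comm]; exact Submodule.smul_mem _ _ ha

theorem Sat'.sc (h : Sat' Φ X) : Sat' (PF.sc c Φ) (PF.sc c X) where
  nonempty := by
    obtain ⟨x, hx⟩ := h.nonempty
    exact ⟨c • x, (smul_mem_sc hc).2 hx⟩
  int := by
    intro a ha x hx
    obtain ⟨a', ha', rfl⟩ := mem_sc.1 ha
    obtain ⟨x', hx', rfl⟩ := mem_sc.1 hx
    rw [co_sc hc]
    exact h.int a' ha' x' hx'
  str := by
    intro a ha x hx j hj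
    obtain ⟨a', ha', rfl⟩ := mem_sc.1 ha
    obtain ⟨x', hx', rfl⟩ := mem_sc.1 hx
    rw [co_sc hc] at hj
    rw [smul_comm, ← smul_sub]
    exact (smul_mem_sc hc).2 (h.str a' ha' x' hx' j hj)
  coset := by
    intro x hx y hy
    obtain ⟨x', hx', rfl⟩ := mem_sc.1 hx
    obtain ⟨y', hy', rfl⟩ := mem_sc.1 hy
    rw [← smul_sub]
    exact closure_sc hc (h.coset x' hx' y' hy')
  span := by
    intro x hx
    obtain ⟨x', hx', rfl⟩ := mem_sc.1 hx
    exact span_sc hc (h.span x' hx')

theorem Wd'.sc {n : ℕ} {l v : E} (h : Wd' Φ X n l v) : Wd' (PF.sc c Φ) (PF.sc c X) n (c • l) (c • v) where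
  rs := h.rs.sc hc
  sat := h.sat.sc hc
  card_le := by rw [card_sc hc]; exact h.card_le
  l_mem := (smul_mem_sc hc).2 h.l_mem
  l_ne := smul_ne_zero hc.ne' h.l_ne
  l_max := by
    intro x hx
    obtain ⟨x', hx', rfl⟩ := mem_sc.1 hx
    rw [inner_smul_left, inner_smul_right, inner_smul_left, inner_smul_right]
    simp only [conj_trivial]
    rw [← mul_assoc, ← mul_assoc]
    exact mul_le_mul_of_nonneg_left (h.l_max x' hx') (mul_pos hc hc).le
  reg := by
    intro a ha
    obtain ⟨a', ha', rfl⟩ := mem_sc.1 ha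
    rw [inner_smul_left, inner_smul_right]
    simp only [conj_trivial]
    exact mul_ne_zero hc.ne' (mul_ne_zero hc.ne' (h.reg a' ha'))
  v_eq := by
    classical
    conv_lhs => rw [h.v_eq]
    rw [Ps_sc hc, PF.sc, Finset.sum_image (fun x _ y _ h => smul_inj' hc h), Finset.smul_sum]
  dom := by
    intro a ha
    rw [Ps_sc hc] at ha
    obtain ⟨a', ha', rfl⟩ := mem_sc.1 ha
    rw [inner_smul_left, inner_smul_right]
    simp only [conj_trivial]
    exact mul_nonneg hc.le (mul_nonneg hc.le (h.dom a' ha'))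
  dim := by
    classical
    rw [Ps_sc hc, PF.sc, Finset.prod_image (fun x _ y _ h => smul_inj' hc h),
      Finset.prod_image (fun x _ y _ h => smul_inj' hc h)]
    have h1 : ∀ a ∈ Ps Φ v, (inner ℝ (c • v) (c • a) : ℝ) = (c * c) * inner ℝ v a := by
      intro a _
      rw [inner_smul_left, inner_smul_right]
      simp only [conj_trivial]
      ring
    have h2 : ∀ a ∈ Ps Φ v, (inner ℝ ((2 : ℝ) • c • l + c • v) (c • a) : ℝ) = (c * c) * inner ℝ ((2 : ℝ) • l + v) a := by
      intro a _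
      rw [smul_comm, ← smul_add, inner_smul_left, inner_smul_right]
      simp only [conj_trivial]
      ring
    rw [Finset.prod_congr rfl h1, Finset.prod_congr rfl h2]
    generalize c * c = q
    rw [Finset.prod_mul_distrib, Finset.prod_mul_distrib, ← h.dim]
    ring
  prime := by
    intro p hp hd
    obtain ⟨a, ha, x, hx, hle⟩ := h.prime p hp hd
    exact ⟨c • a, (smul_mem_sc hc).2 ha, c • x, (smul_mem_sc hc).2 hx, by rw [co_sc hc, qs_sc hc]; exact hle⟩
  dt := by
    intro hA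
    rw [card_sc hc]
    exact h.dt fun h' => hA (TypeA.sc hc h')

theorem TypeS.of_sc (h : TypeS (PF.sc c Φ) (PF.sc c X)) : TypeS Φ X := by
  obtain ⟨m, u, d, hm, hd, hg, hΦ, hX⟩ := h
  refine ⟨m, fun i => c⁻¹ • u i, c⁻¹ * c⁻¹ * d, hm, by positivity, ?_, ?_, ?_⟩
  · intro i j
    rw [inner_smul_left, inner_smul_right, hg i j]
    simp only [conj_trivial]
    ring
  · intro y
    rw [← smul_mem_sc hc, hΦ]
    constructor
    · rintro ⟨i, j, hij, h⟩
      refine ⟨i, j, hij, ?_⟩
      rw [← smul_sub, ← h, smul_smul, inv_mul_cancel₀ hc.ne', one_smul]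
    · rintro ⟨i, j, hij, h⟩
      refine ⟨i, j, hij, ?_⟩
      rw [h, ← smul_sub, smul_smul, mul_inv_cancel₀ hc.ne', one_smul]
  · intro y
    rw [← smul_mem_sc hc, hX]
    constructor
    · rintro ⟨i, h⟩
      refine ⟨i, ?_⟩
      change y = c⁻¹ • u i
      rw [← h, smul_smul, inv_mul_cancel₀ hc.ne', one_smul]
    · rintro ⟨i, h⟩
      refine ⟨i, ?_⟩
      rw [h, smul_smul, mul_inv_cancel₀ hc.ne', one_smul]

end sc

/-- **The exceptional set of the modules which are not self-dual.** -/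
theorem ex4_tt : TT Ex4 := by
  obtain ⟨R1, h1⟩ := dich_fr'.{0} 4
  obtain ⟨R2, D2, h2⟩ := dich_frA'.{0} 4 (by omega)
  obtain ⟨R3, h3⟩ := big_half (1 + D2)
  obtain ⟨M, hM⟩ := classical.{0} (R1 + R2 + R3 + 4)
  refine TT.mono (((dt4_tt M).union h3.tt).union (fewA_half 4).tt) ?_
  rintro n hn ⟨ι, _, Φ, X, l, v, h, ⟨x0, hx0, hx0'⟩, hA, hS⟩
  by_cases hcard : Φ.card < M
  · exact Or.inl (Or.inl ((h.dt hA).mono hcard.le))
  · push Not at hcard
    obtain ⟨c, hc, hNRS⟩ := exists_NRS h.rs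
    have h' := h.sc hc
    obtain ⟨m, hm, hF⟩ := hM (PF.sc c Φ) hNRS (by rw [card_sc hc]; exact hcard)
    rcases hF with ⟨u, hu⟩ | ⟨e, c', d, he⟩
    · rcases h2 h' hu (by omega) with h3 | h3 | ⟨h3, k, t, hk, hk2⟩
      · exact absurd (h3.of_sc hc) hS
      · refine Or.inl (Or.inr ⟨m, by omega, h3.trans (Nat.mul_le_mul_right _ (by omega)), Or.inl ?_⟩)
        exact dim_allA' h' hu (by omega)
      · obtain ⟨x, hx1, hx2, hx3, hx4⟩ := dim_frA' h' hu (by omega) hk
        exact Or.inr ⟨m, x, h3, by rw [hx1]; exact_mod_cast hk2, hx2, hx3, hx4⟩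
    · have h3 := h1 h' he (by omega) ⟨c • x0, (smul_mem_sc hc).2 hx0, by
        rw [← smul_neg, smul_mem_sc hc]
        exact hx0'⟩
      refine Or.inl (Or.inr ⟨m, by omega, ?_, Or.inr ⟨d, he.le, ?_⟩⟩)
      · refine h3.trans ?_
        nlinarith
      · exact dim_all' h' he (by omega)

end AT
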