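import Pool.Agent.Helper81.PX.Defs3

/-!
Project AT (MP_b8862a_ag): irreducible representations which need not be self-dual. Definitions.
-/

set_option linter.unusedSectionVars false

open Module PF TF PW PX

namespace AT

/-- At most `C X^(2/3)` elements up to `X`. -/
def TT (S : Set ℕ) : Prop := ∃ C : ℝ, ∀ X : ℕ, (cn S X : ℝ) ≤ C * (X : ℝ) ^ (2 / 3 : ℝ)

/-- The arithmetic datum of Weyl's dimension formula: for every simple coroot `j` and every `k ≤ r` a coroot which is the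
sum of `k` different simple ones, `j` among them. -/
def Dt4 (M n : ℕ) : Prop := ∃ (r N : ℕ) (f : Fin N → Fin r → ℕ) (b : Fin r → ℕ),
  2 ≤ r ∧ r ≤ M ∧ N ≤ M ∧ (∀ a j, f a j ≤ 4 * M) ∧ (∀ a, 0 < ∑ j, f a j) ∧ (∀ j, 0 < b j) ∧
  (∀ j k, 1 ≤ k → k ≤ r → ∃ a, f a j = 1 ∧ (∀ i, f a i ≤ 1) ∧ ∑ i, f a i = k) ∧
  n * ∏ a, ∑ j, f a j = ∏ a, ∑ j, f a j * b j

section euclid

variable {E : Type*} [NormedAddCommGroup E] [InnerProductSpace ℝ E]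

/-- The set of the weights of an irreducible module: integral, closed under root strings, in one coset of the root
lattice, in the span of the roots. -/
structure Sat' (Φ X : Finset E) : Prop where
  nonempty : X.Nonempty
  int : ∀ a ∈ Φ, ∀ x ∈ X, ∃ k : ℤ, co a x = k
  str : ∀ a ∈ Φ, ∀ x ∈ X, ∀ j : ℕ, (j : ℝ) ≤ co a x → x - (j : ℝ) • a ∈ X
  coset : ∀ x ∈ X, ∀ y ∈ X, x - y ∈ AddSubgroup.closure (Φ : Set E)
  span : ∀ x ∈ X, x ∈ Submodule.span ℝ (Φ : Set E)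

/-- The data: `Φ` the roots, `X` the weights of a faithful irreducible module of dimension `n`, `l` the highest weight,
`v` the sum of the positive roots, Weyl's dimension formula. -/
structure Wd' (Φ X : Finset E) (n : ℕ) (l v : E) : Prop where
  rs : RS Φ
  sat : Sat' Φ X
  card_le : X.card ≤ n
  l_mem : l ∈ X
  l_ne : l ≠ 0
  l_max : ∀ x ∈ X, (inner ℝ x x : ℝ) ≤ inner ℝ l l
  reg : ∀ a ∈ Φ, (inner ℝ v a : ℝ) ≠ 0
  v_eq : v = ∑ a ∈ Ps Φ v, a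
  dom : ∀ a ∈ Ps Φ v, 0 ≤ (inner ℝ l a : ℝ)
  dim : (n : ℝ) * ∏ a ∈ Ps Φ v, (inner ℝ v a : ℝ) = ∏ a ∈ Ps Φ v, (inner ℝ ((2 : ℝ) • l + v) a : ℝ)
  prime : ∀ p : ℕ, p.Prime → p ∣ n → ∃ a ∈ Φ, ∃ x ∈ X, (p : ℝ) ≤ co a x + qs Φ a
  dt : ¬ TypeA Φ → Dt4 Φ.card n

/-- `Φ` is of type `A_(m-1)`, `X` are the weights of the standard module or of its dual. -/
def TypeS (Φ X : Finset E) : Prop :=
  ∃ (m : ℕ) (u : Fin m → E) (c : ℝ), 3 ≤ m ∧ 0 < c ∧ (∀ i j, inner ℝ (u i) (u j) = c * ((if i = j then 1 else 0) - 1 / (m : ℝ))) ∧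
    (∀ y, y ∈ Φ ↔ ∃ i j, i ≠ j ∧ y = u i - u j) ∧ ∀ y, y ∈ X ↔ ∃ i, y = u i

end euclid

/-- The exceptional dimensions of the modules which are not self-dual. -/
def Ex4 : Set ℕ := {n | ∃ (ι : Type) (_ : Fintype ι) (Φ X : Finset (EuclideanSpace ℝ ι)) (l v : EuclideanSpace ℝ ι),
  Wd' Φ X n l v ∧ (∃ x ∈ X, -x ∉ X) ∧ ¬ TypeA Φ ∧ ¬ TypeS Φ X}

end AT
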