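import Pool.Agent.Helper81.AT.Defs
import Pool.Agent.Helper81.PX.Lie3

/-!
Project AT (MP_b8862a_ag): the Lie side for modules which need not be self-dual.
-/

set_option linter.unusedSectionVars false

open Module LieModule LieAlgebra LieAlgebra.IsKilling AddMonoidAlgebra MTP.MF PF PF.W PF.L PF.CC TF TF.L PW PX

namespace AT

section crys

variable {ι K M N : Type*} [Field K] [CharZero K] [AddCommGroup M] [Module K M] [AddCommGroup N]
  [Module K N] [Fintype ι] (P : RootPairing ι K M N) [P.IsCrystallographic]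

/-- the compatibility with the reflections, real coordinates -/
def WtR (f : EuclideanSpace ℝ ι) : Prop := ∀ i j, f (P.reflectionPerm i j) = f j - (PF.CC.rt P i j : ℝ) * f i

theorem wtR_vec {f : ι → ℤ} (hf : Wt P f) : WtR P (vec f) := by
  intro i j
  simp only [vec_apply]
  rw [hf i j]
  push_cast
  ring

/-- a vector compatible with the reflections lies in the span of the roots -/
theorem mem_span_of_wtR {x : EuclideanSpace ℝ ι} (hx : WtR P x) :
    x ∈ Submodule.span ℝ ((Ph P : Finset (EuclideanSpace ℝ ι)) : Set (EuclideanSpace ℝ ι)) := by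
  classical
  obtain ⟨S, hS⟩ : ∃ S : Submodule ℝ (EuclideanSpace ℝ ι), S =
    Submodule.span ℝ ((Ph P : Finset (EuclideanSpace ℝ ι)) : Set (EuclideanSpace ℝ ι)) := ⟨_, rfl⟩
  rw [← hS]
  obtain ⟨y, hy, z, hz, rfl⟩ := S.exists_add_mem_mem_orthogonal x
  have hyS : ∀ y ∈ S, WtR P y := by
    clear hx
    intro y hy
    rw [hS] at hy
    induction hy using Submodule.span_induction with
    | mem v hv =>
      obtain ⟨i, rfl⟩ := (mem_Ph P).1 (Finset.mem_coe.1 hv)
      exact wtR_vec P (wt_rt P i)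
    | zero => intro i j; simp
    | add a b _ _ ha hb =>
      intro i j
      simp only [PiLp.add_apply]
      rw [ha i j, hb i j]
      ring
    | smul r a _ ha =>
      intro i j
      simp only [PiLp.smul_apply, smul_eq_mul]
      rw [ha i j]
      ring
  have hyw : WtR P y := hyS y hy
  have hzw : WtR P z := by
    intro i j
    have h1 := hx i j
    have h2 := hyw i j
    simp only [PiLp.add_apply] at h1
    linarith
  have hz0 : z = 0 := by
    ext i
    have h1 : (inner ℝ (vec (PF.CC.rt P i)) z : ℝ) = 0 :=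
      (Submodule.mem_orthogonal S z).1 hz _ (by
        rw [hS]
        exact Submodule.subset_span (Finset.mem_coe.2 ((mem_Ph P).2 ⟨i, rfl⟩)))
    have h2 : ∑ j, (PF.CC.rt P i j : ℝ) * z j = 0 := by
      rw [PiLp.inner_apply] at h1
      rw [← h1]
      refine Finset.sum_congr rfl fun j _ => ?_
      simp [mul_comm]
    have h3 : ∑ j, (PF.CC.rt P i j : ℝ) * z j =
        ∑ j, (-(PF.CC.rt P i j : ℝ)) * (z j - (PF.CC.rt P i j : ℝ) * z i) := by
      rw [← Equiv.sum_comp (P.reflectionPerm i)]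
      refine Finset.sum_congr rfl fun j _ => ?_
      rw [hzw i j, rt_refl_self]
      push_cast
      ring
    have h4 : ∑ j, (-(PF.CC.rt P i j : ℝ)) * (z j - (PF.CC.rt P i j : ℝ) * z i) =
        -∑ j, (PF.CC.rt P i j : ℝ) * z j + (∑ j, (PF.CC.rt P i j : ℝ) * (PF.CC.rt P i j : ℝ)) * z i := by
      rw [Finset.sum_mul, ← Finset.sum_neg_distrib, ← Finset.sum_add_distrib]
      refine Finset.sum_congr rfl fun j _ => ?_
      ring
    rw [h4, h2] at h3
    have h5 : (0 : ℝ) < ∑ j, (PF.CC.rt P i j : ℝ) * (PF.CC.rt P i j : ℝ) := by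
      have := sum_pos P i
      exact_mod_cast this
    have h6 : (∑ j, (PF.CC.rt P i j : ℝ) * (PF.CC.rt P i j : ℝ)) * z i = 0 := by linarith
    rcases mul_eq_zero.1 h6 with h7 | h7
    · exact absurd h7 h5.ne'
    · exact h7
  rw [hz0, add_zero]
  exact hy

end crys

variable {K : Type*} [Field K] [CharZero K] [IsAlgClosed K]
  {L : Type*} [LieRing L] [LieAlgebra K L] [FiniteDimensional K L] [IsKilling K L]
  {H : LieSubalgebra K L} [H.IsCartanSubalgebra]
  {V : Type*} [AddCommGroup V] [Module K V] [FiniteDimensional K V]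
  [LieRingModule L V] [LieModule K L V] {I : Type*} [Fintype I]

theorem sat' (B : WB (V := V) H I) [Nonempty I]
    (hirr : ∀ W : Submodule K V, (∀ x : L, ∀ u ∈ W, ⁅x, u⁆ ∈ W) → W = ⊥ ∨ W = ⊤) :
    Sat' (Ph (rootSystem H)) (Xw B) where
  nonempty := by
    obtain ⟨i⟩ := ‹Nonempty I›
    exact ⟨_, (mem_Xw B).2 ⟨i, rfl⟩⟩
  int := by
    intro a ha x hx
    obtain ⟨α, rfl⟩ := (mem_Ph _).1 ha
    obtain ⟨i, rfl⟩ := (mem_Xw B).1 hx
    exact ⟨_, co_vec _ (wt_wt B i) α⟩
  str := by
    intro a ha x hx j hj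
    obtain ⟨α, rfl⟩ := (mem_Ph _).1 ha
    obtain ⟨i, rfl⟩ := (mem_Xw B).1 hx
    rw [co_vec _ (wt_wt B i) α] at hj
    have hj' : (j : ℤ) ≤ wt B i α := by exact_mod_cast hj
    obtain ⟨b, n, h1, h2⟩ := string B α i
    have h3 : wt B i α = n - 2 * b := by
      have h4 : ((wt B i α : ℤ) : K) = ((n - 2 * b : ℤ) : K) := by
        rw [← wt_spec, h1]
        push_cast
        ring
      exact_mod_cast h4
    obtain ⟨i', hi'⟩ := h2 (b + j) (by omega)
    refine (mem_Xw B).2 ⟨i', ?_⟩
    rw [wt_of B (i := i) (α := α) (k := -(j : ℤ)) (fun x => by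
      rw [hi' x]
      push_cast
      ring)]
    rw [neg_smul, ← sub_eq_add_neg, vec_sub_smul]
    simp
  coset := by
    intro x hx y hy
    obtain ⟨i, rfl⟩ := (mem_Xw B).1 hx
    obtain ⟨i0, rfl⟩ := (mem_Xw B).1 hy
    obtain ⟨S, hS⟩ : ∃ S : AddSubgroup (EuclideanSpace ℝ H.root), S =
      AddSubgroup.closure ((Ph (rootSystem H) : Finset (EuclideanSpace ℝ H.root)) :
        Set (EuclideanSpace ℝ H.root)) := ⟨_, rfl⟩
    rw [← hS]
    refine B.conn hirr {i | vec (wt B i) - vec (wt B i0) ∈ S} ⟨i0, by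
        change vec (wt B i0) - vec (wt B i0) ∈ S
        rw [sub_self]
        exact zero_mem _⟩ ?_ i
    intro α j k hj hk
    have h1 := wt_of B (i := j) (i' := k) (α := α) (k := 1) (fun x => by
      rw [hk x]
      push_cast
      ring)
    change vec (wt B k) - vec (wt B i0) ∈ S
    rw [h1, one_smul, vec_add]
    have h2 : vec (wt B j) + vec (PF.CC.rt (rootSystem H) α) - vec (wt B i0) =
      (vec (wt B j) - vec (wt B i0)) + vec (PF.CC.rt (rootSystem H) α) := by abel
    rw [h2]
    refine add_mem hj ?_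
    rw [hS]
    refine AddSubgroup.subset_closure ?_
    exact (mem_Ph _).2 ⟨α, rfl⟩
  span := by
    intro x hx
    obtain ⟨i, rfl⟩ := (mem_Xw B).1 hx
    exact mem_span_of_wtR _ (wtR_vec _ (wt_wt B i))

theorem norm_le' (B : WB (V := V) H I) (hsat : Sat' (Ph (rootSystem H)) (Xw B)) (b : (rootSystem H).Base) {t : I}
    (hb : ∀ i, Below b (B.w t) (B.w i)) (hdom : ∀ j ∈ b.support, 0 ≤ wt B t j)
    {x : EuclideanSpace ℝ H.root} (hx : x ∈ Xw B) :
    (inner ℝ x x : ℝ) ≤ inner ℝ (vec (wt B t)) (vec (wt B t)) := by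
  classical
  obtain ⟨R, hR⟩ : ∃ R : EuclideanSpace ℝ H.root, R = ∑ α ∈ pos b, vec (PF.CC.rt (rootSystem H) α) := ⟨_, rfl⟩
  have hin : ∀ (f : H.root → ℤ), Wt (rootSystem H) f → ∀ j : H.root,
      (inner ℝ (vec (PF.CC.rt (rootSystem H) j)) (vec f) : ℝ) =
      (f j : ℝ) * ((∑ k, PF.CC.rt (rootSystem H) j k * PF.CC.rt (rootSystem H) j k : ℤ) : ℝ) / 2 := by
    intro f hf j
    have h1 := two_sum (rootSystem H) hf j
    rw [real_inner_comm, inner_vec]
    have h2 : (2 : ℝ) * ((∑ k, f k * PF.CC.rt (rootSystem H) j k : ℤ) : ℝ) =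
      (f j : ℝ) * ((∑ k, PF.CC.rt (rootSystem H) j k * PF.CC.rt (rootSystem H) j k : ℤ) : ℝ) := by exact_mod_cast h1
    linarith
  have hN : ∀ j : H.root, (0 : ℝ) < ((∑ k, PF.CC.rt (rootSystem H) j k * PF.CC.rt (rootSystem H) j k : ℤ) : ℝ) :=
    fun j => by exact_mod_cast sum_pos (rootSystem H) j
  have hRj : ∀ j ∈ b.support, (0 : ℝ) < inner ℝ (vec (PF.CC.rt (rootSystem H) j)) R := by
    intro j hj
    rw [hR, inner_sum]
    have h1 : ∀ α : H.root, (inner ℝ (vec (PF.CC.rt (rootSystem H) j)) (vec (PF.CC.rt (rootSystem H) α)) : ℝ) =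
        (PF.CC.rt (rootSystem H) α j : ℝ) * (((∑ k, PF.CC.rt (rootSystem H) j k * PF.CC.rt (rootSystem H) j k : ℤ) : ℝ) / 2) := by
      intro α
      rw [hin _ (wt_rt (rootSystem H) α) j, mul_div_assoc]
    rw [Finset.sum_congr rfl fun α _ => h1 α, ← Finset.sum_mul]
    have h2 : ∑ α ∈ pos b, PF.CC.rt (rootSystem H) α j = 2 := by
      have h3 : (rootSystem H).toLinearMap (rho b) ((rootSystem H).coroot j) = 1 := rho_coroot b hj
      have h4 : ((∑ α ∈ pos b, PF.CC.rt (rootSystem H) α j : ℤ) : K) = 2 := by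
        push_cast
        have h5 : (rootSystem H).toLinearMap (rho b) ((rootSystem H).coroot j) =
            2⁻¹ * ∑ α ∈ pos b, (PF.CC.rt (rootSystem H) α j : K) := by
          unfold rho
          rw [map_smul, LinearMap.smul_apply, smul_eq_mul, map_sum, LinearMap.sum_apply]
          congr 1
          refine Finset.sum_congr rfl fun α _ => ?_
          rw [cast_rt]
          rfl
        rw [h5] at h3
        have h6 : (2 : K) * (2⁻¹ * ∑ α ∈ pos b, (PF.CC.rt (rootSystem H) α j : K)) = 2 * 1 := by rw [h3]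
        rwa [← mul_assoc, mul_inv_cancel₀ (two_ne_zero), one_mul, mul_one] at h6
      exact_mod_cast h4
    have h3 : ∑ α ∈ pos b, (PF.CC.rt (rootSystem H) α j : ℝ) = 2 := by exact_mod_cast h2
    rw [h3]
    have := hN j
    linarith
  obtain ⟨x1, hx1, hmax1⟩ := Finset.exists_max_image (Xw B) (fun x => (inner ℝ x x : ℝ)) hsat.nonempty
  obtain ⟨x2, hx2, hmax2⟩ := Finset.exists_max_image ((Xw B).filter fun x => (inner ℝ x x : ℝ) = inner ℝ x1 x1)
    (fun x => (inner ℝ x R : ℝ)) ⟨x1, Finset.mem_filter.2 ⟨hx1, rfl⟩⟩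
  rw [Finset.mem_filter] at hx2
  refine (hmax1 x hx).trans ?_
  rw [← hx2.2]
  obtain ⟨i, hi⟩ := (mem_Xw B).1 hx2.1
  have hdom2 : ∀ j ∈ b.support, 0 ≤ wt B i j := by
    intro j hj
    by_contra hneg
    push Not at hneg
    obtain ⟨k, hk⟩ : ∃ k : ℕ, -(wt B i j) = (k : ℤ) := Int.eq_ofNat_of_zero_le (by omega)
    have hja : vec (PF.CC.rt (rootSystem H) ((rootSystem H).reflectionPerm j j)) = - vec (PF.CC.rt (rootSystem H) j) := by
      rw [← vec_neg]
      congr 1
      funext l
      rw [rt_neg]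
      rfl
    have hmem : -vec (PF.CC.rt (rootSystem H) j) ∈ Ph (rootSystem H) := (mem_Ph _).2 ⟨_, hja⟩
    have hco : co (-vec (PF.CC.rt (rootSystem H) j)) x2 = k := by
      have h1 := co_vec (rootSystem H) (wt_wt B i) j
      unfold co at h1 ⊢
      rw [inner_neg_right, inner_neg_neg, ← hi, mul_neg, neg_div, h1]
      have h2 : ((-(wt B i j) : ℤ) : ℝ) = ((k : ℤ) : ℝ) := by rw [hk]
      push_cast at h2
      exact h2
    have h1 := hsat.str _ hmem x2 hx2.1 k hco.ge
    rw [smul_neg, sub_neg_eq_add] at h1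
    have h2 : (inner ℝ (vec (PF.CC.rt (rootSystem H) j)) x2 : ℝ) = -(k : ℝ) *
        (inner ℝ (vec (PF.CC.rt (rootSystem H) j)) (vec (PF.CC.rt (rootSystem H) j))) / 2 := by
      rw [← hi, hin _ (wt_wt B i) j, inner_vec]
      have h2 : ((-(wt B i j) : ℤ) : ℝ) = ((k : ℤ) : ℝ) := by rw [hk]
      push_cast at h2 ⊢
      rw [← h2]
      ring
    have h3 : (inner ℝ (x2 + (k : ℝ) • vec (PF.CC.rt (rootSystem H) j)) (x2 + (k : ℝ) • vec (PF.CC.rt (rootSystem H) j)) : ℝ) =
        inner ℝ x1 x1 := by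
      rw [inner_add_left, inner_add_right, inner_add_right, inner_smul_left, inner_smul_right, inner_smul_left,
        inner_smul_right, real_inner_comm (vec (PF.CC.rt (rootSystem H) j)) x2, h2, ← hx2.2]
      simp only [conj_trivial]
      ring
    have h4 := hmax2 _ (Finset.mem_filter.2 ⟨h1, h3⟩)
    rw [inner_add_left, inner_smul_left] at h4
    simp only [conj_trivial] at h4
    have h5 := hRj j hj
    have h6 : (0 : ℝ) < k := by
      have : 0 < k := by omega
      exact_mod_cast this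
    nlinarith [mul_pos h6 h5]
  obtain ⟨κ, hκ⟩ := hb i
  have hsub : vec (wt B t) - x2 = ∑ j ∈ b.support, (κ j : ℝ) • vec (PF.CC.rt (rootSystem H) j) := by
    rw [← hi]
    ext α
    have h1 : ((wt B i α : ℤ) : K) = ((wt B t α - ∑ j ∈ b.support, (κ j : ℤ) * PF.CC.rt (rootSystem H) j α : ℤ) : K) := by
      rw [← wt_spec, hκ, LinearMap.sub_apply, wt_spec, LinearMap.sum_apply, Int.cast_sub, Int.cast_sum]
      congr 1
      refine Finset.sum_congr rfl fun j _ => ?_
      rw [LinearMap.smul_apply, smul_eq_mul, root_spec]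
      push_cast
      rfl
    have h2 : wt B i α = wt B t α - ∑ j ∈ b.support, (κ j : ℤ) * PF.CC.rt (rootSystem H) j α := by exact_mod_cast h1
    simp only [PiLp.sub_apply, vec_apply, WithLp.ofLp_sum, WithLp.ofLp_smul, Finset.sum_apply, Pi.smul_apply, smul_eq_mul]
    rw [h2]
    push_cast
    simp
  have hpos : ∀ (i : I), (∀ j ∈ b.support, 0 ≤ wt B i j) → (0 : ℝ) ≤ inner ℝ (vec (wt B t) - x2) (vec (wt B i)) := by
    intro i hd
    rw [hsub, sum_inner]
    refine Finset.sum_nonneg fun j hj => ?_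
    rw [inner_smul_left, hin _ (wt_wt B i) j]
    simp only [conj_trivial]
    have h1 : (0 : ℝ) ≤ (wt B i j : ℝ) := by exact_mod_cast hd j hj
    have h2 := hN j
    positivity
  have h1 := hpos t hdom
  have h2 := hpos i hdom2
  rw [hi] at h2
  rw [inner_sub_left] at h1 h2
  rw [real_inner_comm (vec (wt B t)) x2] at h1
  linarith

theorem exists_wd' (B : WB (V := V) H I) [Nonempty I] [Nonempty H.root] [(rootSystem H).IsIrreducible]
    (hirr : ∀ W : Submodule K V, (∀ x : L, ∀ u ∈ W, ⁅x, u⁆ ∈ W) → W = ⊥ ∨ W = ⊤)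
    (hfaith : ∀ x : L, (∀ u : V, ⁅x, u⁆ = 0) → x = 0) :
    ∃ l v : EuclideanSpace ℝ H.root, Wd' (PF.CC.Ph (rootSystem H)) (PF.CC.Xw B) (Fintype.card I) l v := by
  classical
  obtain ⟨b⟩ : Nonempty (rootSystem H).Base := (rootSystem H).nonempty_base
  obtain ⟨t, htb, htdom, hdim⟩ := dimension B hirr hfaith b
  have hsat := sat' B hirr
  have hdom : ∀ j ∈ b.support, 0 ≤ wt B t j := by
    intro j hj
    obtain ⟨k, hk⟩ := htdom j hj
    have h1 : ((wt B t j : ℤ) : K) = ((k : ℤ) : K) := by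
      rw [← wt_spec, hk]
      push_cast
      rfl
    have h2 : wt B t j = k := by exact_mod_cast h1
    omega
  -- expansions of the positive coroots
  have hc : ∀ α ∈ pos b, ∃ f : H.root → ℕ, coroot α.1 = ∑ j ∈ b.support, (f j : K) • coroot j.1 ∧
      0 < ∑ j ∈ b.support, f j := by
    intro α hα
    have : b.IsPos α := by simpa [pos] using hα
    obtain ⟨f, hf, hf'⟩ := coroot_eq_sum b this
    exact ⟨f, hf, hf'⟩
  choose! f hf hf' using hc
  have e1 : ∀ α ∈ pos b, rho b (coroot α.1) = ((∑ j ∈ b.support, f α j : ℕ) : K) := by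
    intro α hα
    rw [hf α hα, map_sum, Nat.cast_sum]
    refine Finset.sum_congr rfl fun j hj => ?_
    have : rho b (coroot j.1) = 1 := rho_coroot b hj
    rw [map_smul, this, smul_eq_mul, mul_one]
  obtain ⟨R, hR⟩ : ∃ R : H.root → ℤ, R = fun α => ∑ β ∈ pos b, PF.CC.rt (rootSystem H) β α := ⟨_, rfl⟩
  have hRW : Wt (rootSystem H) R := by
    have h1 : ∀ α : H.root, ((2 : K) • rho b : Dual K H) (coroot α.1) = (R α : K) := by
      intro α
      rw [LinearMap.smul_apply, smul_eq_mul, two_rho, hR]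
    exact wt_dual h1
  have hR1 : ∀ α ∈ pos b, R α = 2 * ((∑ j ∈ b.support, f α j : ℕ) : ℤ) := by
    intro α hα
    have h1 : ((R α : ℤ) : K) = ((2 * ((∑ j ∈ b.support, f α j : ℕ) : ℤ) : ℤ) : K) := by
      have h2 := two_rho b α
      rw [e1 α hα] at h2
      rw [hR, ← h2]
      push_cast
      rfl
    exact_mod_cast h1
  have hRpos : ∀ α ∈ pos b, 0 < R α := by
    intro α hα
    rw [hR1 α hα]
    have := hf' α hα
    omega
  have hneg : ∀ α : H.root, R ((rootSystem H).reflectionPerm α α) = - R α := by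
    intro α
    rw [hRW α α, rt_self]
    ring
  have hRneg : ∀ α, α ∉ pos b → R α < 0 := by
    intro α hα
    have h1 : b.IsPos ((rootSystem H).reflectionPerm α α) := by
      have h2 := RootPairing.Base.IsPos.neg_iff_not b α
      refine h2.2 ?_
      intro h3
      apply hα
      simpa [pos] using h3
    have h2 := hRpos ((rootSystem H).reflectionPerm α α) (by simpa [pos] using h1)
    rw [hneg] at h2
    omega
  obtain ⟨v, hv⟩ : ∃ v : EuclideanSpace ℝ H.root, v = vec R := ⟨_, rfl⟩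
  have hin : ∀ (g : H.root → ℤ), Wt (rootSystem H) g → ∀ j : H.root,
      (inner ℝ (vec g) (vec (PF.CC.rt (rootSystem H) j)) : ℝ) =
      (g j : ℝ) * (((∑ k, PF.CC.rt (rootSystem H) j k * PF.CC.rt (rootSystem H) j k : ℤ) : ℝ) / 2) := by
    intro g hg j
    have h1 := two_sum (rootSystem H) hg j
    rw [inner_vec]
    have h2 : (2 : ℝ) * ((∑ k, g k * PF.CC.rt (rootSystem H) j k : ℤ) : ℝ) =
      (g j : ℝ) * ((∑ k, PF.CC.rt (rootSystem H) j k * PF.CC.rt (rootSystem H) j k : ℤ) : ℝ) := by exact_mod_cast h1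
    linarith
  have hN : ∀ j : H.root, (0 : ℝ) < ((∑ k, PF.CC.rt (rootSystem H) j k * PF.CC.rt (rootSystem H) j k : ℤ) : ℝ) / 2 :=
    fun j => by
      have : (0 : ℝ) < ((∑ k, PF.CC.rt (rootSystem H) j k * PF.CC.rt (rootSystem H) j k : ℤ) : ℝ) := by
        exact_mod_cast sum_pos (rootSystem H) j
      linarith
  have hPs : Ps (Ph (rootSystem H)) v = (pos b).image fun α => vec (PF.CC.rt (rootSystem H) α) := by
    ext a
    unfold Ps
    rw [Finset.mem_filter, mem_Ph, Finset.mem_image]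
    constructor
    · rintro ⟨⟨α, rfl⟩, h2⟩
      refine ⟨α, ?_, rfl⟩
      by_contra h3
      have h4 := hRneg α h3
      rw [hv, hin R hRW] at h2
      have h5 : (R α : ℝ) < 0 := by exact_mod_cast h4
      nlinarith [hN α]
    · rintro ⟨α, hα, rfl⟩
      refine ⟨⟨α, rfl⟩, ?_⟩
      rw [hv, hin R hRW]
      have h5 : (0 : ℝ) < (R α : ℝ) := by exact_mod_cast hRpos α hα
      exact mul_pos h5 (hN α)
  have hinj : Set.InjOn (fun α : H.root => vec (PF.CC.rt (rootSystem H) α)) (pos b : Set H.root) :=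
    fun α _ β _ h => rt_inj (rootSystem H) (vec_inj h)
  refine ⟨vec (wt B t), v, ⟨rs (rootSystem H), hsat, card_Xw B, (mem_Xw B).2 ⟨t, rfl⟩, ?_,
    fun x hx => norm_le' B hsat b htb hdom hx, ?_, ?_, ?_, ?_, ?_, ?_⟩⟩
  · intro h0
    obtain ⟨α⟩ := ‹Nonempty H.root›
    obtain ⟨x, hx, hx0⟩ := exists_ne_zero' B hfaith α
    have h1 := norm_le' B hsat b htb hdom hx
    rw [h0, inner_zero_left] at h1
    exact hx0 (inner_self_eq_zero.1 (le_antisymm h1 real_inner_self_nonneg))
  · intro a ha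
    obtain ⟨α, rfl⟩ := (mem_Ph _).1 ha
    rw [hv, hin R hRW]
    refine mul_ne_zero ?_ (hN α).ne'
    by_cases hα : α ∈ pos b
    · exact_mod_cast (hRpos α hα).ne'
    · exact_mod_cast (hRneg α hα).ne
  · rw [hPs, Finset.sum_image hinj, hv, hR]
    ext α
    simp only [vec_apply, WithLp.ofLp_sum, Finset.sum_apply]
    push_cast
    rfl
  · intro a ha
    rw [hPs, Finset.mem_image] at ha
    obtain ⟨α, hα, rfl⟩ := ha
    rw [hin _ (wt_wt B t)]
    have h1 := dom_pos b (fun β => wt_spec B t β) hdom hα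
    have h2 : (0 : ℝ) ≤ (wt B t α : ℝ) := by exact_mod_cast h1
    exact mul_nonneg h2 (hN α).le
  · rw [hPs, Finset.prod_image hinj, Finset.prod_image hinj]
    have h1 : ∀ α ∈ pos b, (inner ℝ ((2 : ℝ) • vec (wt B t) + v) (vec (PF.CC.rt (rootSystem H) α)) : ℝ) =
        ((2 * wt B t α + R α : ℤ) : ℝ) * (((∑ k, PF.CC.rt (rootSystem H) α k * PF.CC.rt (rootSystem H) α k : ℤ) : ℝ) / 2) := by
      intro α _
      rw [inner_add_left, inner_smul_left, hv, hin R hRW, hin _ (wt_wt B t)]
      simp only [conj_trivial]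
      push_cast
      ring
    have h2 : ∀ α ∈ pos b, (inner ℝ v (vec (PF.CC.rt (rootSystem H) α)) : ℝ) =
        ((R α : ℤ) : ℝ) * (((∑ k, PF.CC.rt (rootSystem H) α k * PF.CC.rt (rootSystem H) α k : ℤ) : ℝ) / 2) := by
      intro α _
      rw [hv, hin R hRW]
    rw [Finset.prod_congr rfl h1, Finset.prod_congr rfl h2, Finset.prod_mul_distrib, Finset.prod_mul_distrib, ← mul_assoc]
    congr 1
    have h3 : (Fintype.card I : ℤ) * ∏ α ∈ pos b, R α = ∏ α ∈ pos b, (2 * wt B t α + R α) := by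
      have h4 : (((Fintype.card I : ℤ) * ∏ α ∈ pos b, R α : ℤ) : K) =
          ((∏ α ∈ pos b, (2 * wt B t α + R α) : ℤ) : K) := by
        have h5 : ∀ α ∈ pos b, ((R α : ℤ) : K) = 2 * rho b (coroot α.1) := by
          intro α _
          rw [two_rho, hR]
        have h6 : ∀ α ∈ pos b, ((2 * wt B t α + R α : ℤ) : K) = 2 * (B.w t + rho b) (coroot α.1) := by
          intro α hα
          rw [Int.cast_add, h5 α hα, LinearMap.add_apply, wt_spec]
          push_cast
          ring
        rw [Int.cast_mul, Int.cast_prod, Int.cast_prod, Finset.prod_congr rfl h5, Finset.prod_congr rfl h6,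
          Finset.prod_mul_distrib, Finset.prod_mul_distrib, ← hdim]
        push_cast
        ring
      exact_mod_cast h4
    exact_mod_cast h3
  · intro p hp hd
    obtain ⟨α, i, k, hk, hle⟩ := PF.L.exists_large B hirr hfaith hp hd ‹Nonempty I›
    refine ⟨vec (PF.CC.rt (rootSystem H) α), (mem_Ph _).2 ⟨α, rfl⟩, vec (wt B i), (mem_Xw B).2 ⟨i, rfl⟩, ?_⟩
    have h1 : wt B i α = k := by
      have h2 : ((wt B i α : ℤ) : K) = k := by rw [← wt_spec, hk]
      exact_mod_cast h2
    rw [co_vec _ (wt_wt B i) α, qs_eq, h1]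
    have h2 : ((p : ℚ) : ℝ) ≤ ((k + (1 / 4) * ∑ g : H.root, |((rootSystem H).pairingIn ℤ g α : ℚ)| : ℚ) : ℝ) := by
      exact_mod_cast hle
    push_cast at h2
    exact h2
  · intro hA
    have h2 := two_le_card b hA
    have hcardPh : (Ph (rootSystem H)).card = Fintype.card H.root := by
      unfold Ph
      rw [Finset.card_image_of_injective _ fun α β h => rt_inj (rootSystem H) (vec_inj h), Finset.card_univ]
    choose! k hk using htdom
    obtain ⟨er⟩ : Nonempty (Fin b.support.card ≃ b.support) := ⟨b.support.equivFin.symm⟩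
    obtain ⟨eN⟩ : Nonempty (Fin (pos b).card ≃ pos b) := ⟨(pos b).equivFin.symm⟩
    have hsup : ∀ j ∈ b.support, j ∈ pos b := by
      intro j hj
      have := RootPairing.Base.isPos_of_mem_support hj
      simpa [pos] using this
    have hsum : ∀ g : H.root → ℕ, ∑ j, g (er j) = ∑ j ∈ b.support, g j := by
      intro g
      rw [Equiv.sum_comp er (fun j : b.support => g j), Finset.sum_coe_sort b.support g]
    have hprod : ∀ g : H.root → ℕ, ∏ a, g (eN a) = ∏ a ∈ pos b, g a := by
      intro g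
      rw [Equiv.prod_comp eN (fun j : pos b => g j), Finset.prod_coe_sort (pos b) g]
    have hposle : (pos b).card ≤ Fintype.card H.root := Finset.card_le_univ _
    have hsuple : b.support.card ≤ Fintype.card H.root := Finset.card_le_univ _
    have hpos : ∀ (s : H.root) (g : H.root → ℕ), Cf (P := (rootSystem H).flip) b.flip g s → 1 ≤ ∑ l ∈ b.support, g l →
        s ∈ pos b ∧ ∀ l ∈ b.support, f s l = g l := by
      intro s g hg hg2
      have h3 : b.IsPos s := by
        rw [← isPos_flip b, RootPairing.Base.isPos_iff]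
        have h4 := b.flip.height_eq_sum (i := s) (f := fun l => (g l : ℤ)) (by
          rw [hg]
          refine Finset.sum_congr rfl fun l _ => ?_
          rw [natCast_zsmul, Nat.cast_smul_eq_nsmul])
        rw [h4]
        have h5 : (1 : ℤ) ≤ ((∑ l ∈ b.support, g l : ℕ) : ℤ) := by exact_mod_cast hg2
        push_cast at h5
        have h6 : b.flip.support = b.support := rfl
        rw [h6]
        omega
      have h4 : s ∈ pos b := by simpa [pos] using h3
      exact ⟨h4, fun l hl => coef_unique b ((hf s h4).symm.trans hg) hl⟩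
    refine ⟨b.support.card, (pos b).card, fun a j => f (eN a) (er j), fun j => k (er j) + 1,
      h2, ?_, ?_, ?_, ?_, ?_, ?_, ?_⟩
    · rw [hcardPh]
      exact hsuple
    · rw [hcardPh]
      exact hposle
    · intro a j
      rw [hcardPh]
      have h3 : f (eN a) (er j) ≤ ∑ j ∈ b.support, f (eN a) j :=
        Finset.single_le_sum (f := fun j => f (eN a) j) (fun _ _ => Nat.zero_le _) (er j).2
      have h4 := hR1 (eN a) (eN a).2
      have h5 : R (eN a) ≤ 4 * (Fintype.card H.root : ℤ) := by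
        rw [hR]
        have h6 : ∀ β ∈ pos b, PF.CC.rt (rootSystem H) β (eN a) ≤ 4 := by
          intro β _
          have h1 := (rootSystem H).pairingIn_pairingIn_mem_set_of_isCrystal_of_isRed β (eN a)
          have h2 : PF.CC.rt (rootSystem H) β (eN a) = (rootSystem H).pairingIn ℤ β (eN a) := rfl
          rw [h2]
          simp only [Set.mem_insert_iff, Set.mem_singleton_iff, Prod.mk.injEq] at h1
          rcases h1 with h | h | h | h | h | h | h | h | h | h | h | h | h <;> rw [h.1] <;> norm_num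
        refine (Finset.sum_le_sum h6).trans ?_
        rw [Finset.sum_const, nsmul_eq_mul]
        have : ((pos b).card : ℤ) ≤ (Fintype.card H.root : ℤ) := by exact_mod_cast hposle
        linarith
      have h6 : ((∑ j ∈ b.support, f (eN a) j : ℕ) : ℤ) ≤ 4 * (Fintype.card H.root : ℤ) := by
        have : (0 : ℤ) ≤ ((∑ j ∈ b.support, f (eN a) j : ℕ) : ℤ) := Int.natCast_nonneg _
        linarith
      have h7 : ∑ j ∈ b.support, f (eN a) j ≤ 4 * Fintype.card H.root := by exact_mod_cast h6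
      exact h3.trans h7
    · intro a
      rw [hsum (fun j => f (eN a) j)]
      exact hf' _ (eN a).2
    · intro j
      exact Nat.succ_pos _
    · intro j m hm1 hm2
      obtain ⟨J, hJ, hJc, hjJ, γ, g, hg, hg1, hg0⟩ := exists_conn (P := (rootSystem H).flip) b.flip (v := (er j : H.root))
        (er j).2 m hm1 hm2
      have hJ' : J ⊆ b.support := hJ
      have hs : ∑ l ∈ b.support, g l = m := by
        rw [← Finset.sum_subset hJ' (fun l _ hl => hg0 l hl), Finset.sum_congr rfl hg1, Finset.sum_const, hJc, smul_eq_mul,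
          mul_one]
      obtain ⟨h3, h4⟩ := hpos γ g hg (by omega)
      refine ⟨eN.symm ⟨γ, h3⟩, ?_, ?_, ?_⟩
      · simp only [Equiv.apply_symm_apply]
        rw [h4 _ (er j).2, hg1 _ hjJ]
      · intro i
        simp only [Equiv.apply_symm_apply]
        rw [h4 _ (er i).2]
        by_cases hi : (er i : H.root) ∈ J
        · rw [hg1 _ hi]
        · rw [hg0 _ hi]; omega
      · simp only [Equiv.apply_symm_apply]
        rw [hsum (fun l => f γ l), Finset.sum_congr rfl h4, hs]
    · have e2 : ∀ α ∈ pos b, (B.w t + rho b) (coroot α.1) = ((∑ j ∈ b.support, f α j * (k j + 1) : ℕ) : K) := by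
        intro α hα
        rw [hf α hα, map_sum, Nat.cast_sum]
        refine Finset.sum_congr rfl fun j hj => ?_
        have h3 : rho b (coroot j.1) = 1 := rho_coroot b hj
        rw [map_smul, LinearMap.add_apply, h3, hk j hj, smul_eq_mul, Nat.cast_mul, Nat.cast_add, Nat.cast_one]
      have h3 : Fintype.card I * ∏ α ∈ pos b, (∑ j ∈ b.support, f α j) = ∏ α ∈ pos b, (∑ j ∈ b.support, f α j * (k j + 1)) := by
        have h4 : ((Fintype.card I * ∏ α ∈ pos b, (∑ j ∈ b.support, f α j) : ℕ) : K) =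
            ((∏ α ∈ pos b, (∑ j ∈ b.support, f α j * (k j + 1)) : ℕ) : K) := by
          rw [Nat.cast_mul, Nat.cast_prod, Nat.cast_prod, ← Finset.prod_congr rfl e1, ← Finset.prod_congr rfl e2]
          exact hdim
        exact_mod_cast h4
      have h5 : ∏ a, ∑ j, f (eN a) (er j) = ∏ α ∈ pos b, (∑ j ∈ b.support, f α j) := by
        rw [← hprod (fun α => ∑ j ∈ b.support, f α j)]
        exact Finset.prod_congr rfl fun a _ => hsum (fun j => f (eN a) j)
      have h6 : ∏ a, ∑ j, f (eN a) (er j) * (k (er j) + 1) = ∏ α ∈ pos b, (∑ j ∈ b.support, f α j * (k j + 1)) := by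
        rw [← hprod (fun α => ∑ j ∈ b.support, f α j * (k j + 1))]
        exact Finset.prod_congr rfl fun a _ => hsum (fun j => f (eN a) j * (k j + 1))
      rw [h5, h6]
      exact h3

end AT
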