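import Pool.Agent.Helper98.AT.Form
import Pool.Agent.Helper14.AT.Std
import Pool.Agent.Helper81.AT.Lie
import Pool.Agent.Helper81.PX.Core3

/-!
Project AT (MP_b8862a_ag): the core theorem, no form.
-/

set_option linter.unusedSectionVars false

open Module LieModule LieAlgebra LieAlgebra.IsKilling AddMonoidAlgebra MTP.MF PF PF.W PF.L TF PW PX
open Pool.Agent.Helper54.MT (semisimple_of_diag exists_cartan_end killing_of)

attribute [local instance 100] LieRing.ofAssociativeRing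

namespace AT

/-- **The core theorem.** -/
theorem core4 {V : Type} [AddCommGroup V] [Module ℂ V] [FiniteDimensional ℂ V]
    {L : LieSubalgebra ℂ (Module.End ℂ V)} [IsSimple ℂ L]
    (hirr : ∀ W : Submodule ℂ V, (∀ x ∈ L, ∀ u ∈ W, x u ∈ W) → W = ⊥ ∨ W = ⊤)
    (hE3 : finrank ℂ V ∉ Ex3) (hE4 : finrank ℂ V ∉ Ex4) :
    (∀ x : Module.End ℂ V, LinearMap.trace ℂ V x = 0 → x ∈ L) ∨
    (∃ ω : LinearMap.BilinForm ℂ V, (ω.IsSymm ∨ ω.IsAlt) ∧ ω.Nondegenerate ∧
      ∀ x : Module.End ℂ V, x ∈ L ↔ ∀ u v, ω (x u) v = -ω u (x v)) ∨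
      ∀ h ∈ L, h ≠ 0 → (⨆ c : ℂ, Module.End.eigenspace h c) = ⊤ →
        ∀ c : ℂ, finrank ℂ (Module.End.eigenspace h c) ≤ 1 := by
  classical
  by_cases hform : ∃ ω : LinearMap.BilinForm ℂ V, (ω.IsSymm ∨ ω.IsAlt) ∧ ω.Nondegenerate ∧
      ∀ x ∈ L, ∀ u v, ω (x u) v = -ω u (x v)
  · obtain ⟨ω, hω, hnd, hsk⟩ := hform
    right
    rcases core3 hω hnd hirr hsk hE3 with h | h
    · exact Or.inl ⟨ω, hω, hnd, fun x => ⟨fun hx u v => hsk x hx u v, h x⟩⟩
    · exact Or.inr h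
  by_cases hsl : ∀ x : Module.End ℂ V, LinearMap.trace ℂ V x = 0 → x ∈ L
  · exact Or.inl hsl
  right; right
  intro y hy hy0 hdiag c
  have hVn : Nontrivial V := by
    by_contra hcon
    rw [not_nontrivial_iff_subsingleton] at hcon
    apply hy0
    ext u
    exact Subsingleton.elim _ _
  have hk : IsKilling ℂ L := inferInstance
  obtain ⟨H, hH, hyH⟩ := exists_cartan_end (L := L) ⟨y, hy⟩ (semisimple_of_diag hdiag)
  have hirrR : (rootSystem H).IsIrreducible := inferInstance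
  have hne : Nonempty H.root := by
    by_contra hcon
    rw [not_nonempty_iff] at hcon
    have hN : Nontrivial H := RootPairing.IsIrreducible.nontrivial' (rootSystem H)
    have h1 : (⊤ : Submodule ℂ H) = ⊥ := by
      have h2 : (rootSystem H).corootSpan ℂ = ⊤ := RootPairing.IsRootSystem.span_coroot_eq_top
      rw [← h2, RootPairing.corootSpan, Set.range_eq_empty, Submodule.span_empty]
    exact bot_ne_top h1.symm
  have hirr' : ∀ W : Submodule ℂ V, (∀ x : L, ∀ u ∈ W, ⁅x, u⁆ ∈ W) → W = ⊥ ∨ W = ⊤ :=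
    fun W hW => hirr W fun z hz w hw => hW ⟨z, hz⟩ w hw
  have hfaith : ∀ x : L, (∀ u : V, ⁅x, u⁆ = 0) → x = 0 := by
    intro x hx
    apply Subtype.ext
    ext u
    exact hx u
  obtain ⟨m, ⟨B⟩⟩ := exists_WB (V := V) (H := H) hirr'
  have hcard : Fintype.card (Fin m) = finrank ℂ V := by
    rw [Module.finrank_eq_card_basis B.v]
  have hI : Nonempty (Fin m) := by
    rw [← Fintype.card_pos_iff, hcard]
    exact finrank_pos
  obtain ⟨l, v, hwd⟩ := exists_wd' B hirr' hfaith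
  rw [hcard] at hwd
  have hneg : ∃ x ∈ PF.CC.Xw B, -x ∉ PF.CC.Xw B := by
    by_contra hcon
    push Not at hcon
    obtain ⟨ω, hω, hnd, hsk⟩ := exists_form B hirr' hcon
    exact hform ⟨ω, hω, hnd, fun x hx u v => hsk ⟨x, hx⟩ u v⟩
  by_cases hA : TypeA (PF.CC.Ph (rootSystem H))
  · rw [← PF.C.PhiS_eq] at hA
    have hy' : (⟨⟨y, hy⟩, hyH⟩ : H) ≠ 0 := by
      intro h
      apply hy0
      have := congrArg (fun z : H => ((z : L) : Module.End ℂ V)) h
      exact this
    exact PF.C.finrank_eig B ⟨⟨y, hy⟩, hyH⟩ (fun i j hij => (PF.C.typeA_simple B hirr' hA).2 _ hy' hij) c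
  · exfalso
    by_cases hS : TypeS (PF.CC.Ph (rootSystem H)) (PF.CC.Xw B)
    · apply hsl
      intro x hx
      obtain ⟨z, hz⟩ := typeS_sl B hirr' hfaith hS x hx
      have : (z : Module.End ℂ V) = x := by
        ext u
        exact hz u
      rw [← this]
      exact z.2
    · exact hE4 ⟨H.root, inferInstance, _, _, l, v, hwd, hneg, hA, hS⟩

end AT
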