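import Pool.Agent.Helper98.AT.Blk
import Pool.Agent.Helper14.AT.Arith
import Pool.Agent.Helper14.PX.Fin
import Pool.Agent.Helper81.AT.Prog

/-!
Project AT (MP_b8862a_ag), block H with the sharp exceptional case: Hodge numbers `1` on an arithmetic progression.
-/

set_option linter.unusedSectionVars false
set_option linter.unusedVariables false

open Matrix Module GH OW

attribute [local instance 100] LieRing.ofAssociativeRing

namespace MH

/-- The core statement in dimension `r`: a simple irreducible Lie algebra consists of all endomorphisms of trace zero, or of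
all those that are skew for a symmetric or alternating form, or its diagonalisable elements have simple eigenvalues in an
arithmetic progression. -/
def CoreUP (r : ℕ) : Prop := ∀ (L : LieSubalgebra ℂ (Module.End ℂ (Fin r → ℂ))) [LieAlgebra.IsSimple ℂ L],
  (∀ W : Submodule ℂ (Fin r → ℂ), (∀ x ∈ L, ∀ u ∈ W, x u ∈ W) → W = ⊥ ∨ W = ⊤) →
  (∀ x : Module.End ℂ (Fin r → ℂ), LinearMap.trace ℂ _ x = 0 → x ∈ L) ∨
  (∃ ω : LinearMap.BilinForm ℂ (Fin r → ℂ), (ω.IsSymm ∨ ω.IsAlt) ∧ ω.Nondegenerate ∧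
      ∀ x : Module.End ℂ (Fin r → ℂ), x ∈ L ↔ ∀ u v, ω (x u) v = -ω u (x v)) ∨
      ∀ h ∈ L, h ≠ 0 → (⨆ c : ℂ, Module.End.eigenspace h c) = ⊤ → AT.Prog h

/-- the abstract condition on a block that need not be self-dual -/
def CrUP (r : ℕ) (h : ℤ → ℕ) : Prop := IndecU h ∧ ¬ Arith r h ∧ 9 ≤ r ∧ CoreUP r

/-- **A simple irreducible Lie algebra of matrices, by the core statement.** -/
theorem mat_coreUP {r : ℕ} (hr : 2 ≤ r) {L : Submodule ℂ (Matrix (Fin r) (Fin r) ℂ)}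
    (hbr : ∀ X ∈ L, ∀ Y ∈ L, X * Y - Y * X ∈ L)
    (hirr : ∀ W : Submodule ℂ (Fin r → ℂ), (∀ X ∈ L, ∀ w ∈ W, X *ᵥ w ∈ W) → W = ⊥ ∨ W = ⊤) (hs : Smp L)
    {h : Matrix (Fin r) (Fin r) ℂ} (hh : h ∈ L) (h0 : h ≠ 0) {E : ℝ → Matrix (Fin r) (Fin r) ℂ} {Λ : Finset ℝ}
    (hE : SD h E Λ) (h2 : ¬ AT.Prog (Matrix.toLin' h)) (hc : CoreUP r) :
    (∀ x : Matrix (Fin r) (Fin r) ℂ, x.trace = 0 → x ∈ L) ∨
      ∃ F Fi : Matrix (Fin r) (Fin r) ℂ, F * Fi = 1 ∧ Fi * F = 1 ∧ (Fᵀ = F ∨ Fᵀ = -F) ∧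
        ∀ x, x ∈ L ↔ xᵀ * F + F * x = 0 := by
  classical
  have hcard : 2 ≤ Fintype.card (Fin r) := by rw [Fintype.card_fin]; exact hr
  have := lieOf_simple (hbr := hbr) hirr hcard hs
  have hmem : ∀ x : Matrix (Fin r) (Fin r) ℂ, Matrix.toLin' x ∈ lieOf L hbr ↔ x ∈ L := by
    intro x
    rw [mem_lieOf, LinearMap.toMatrix'_toLin']
  rcases hc (lieOf L hbr) (lieOf_irr hirr) with h3 | ⟨ω, hω, hnd, hmω⟩ | h3
  · left
    intro x hx
    rw [← hmem]
    apply h3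
    rw [Matrix.trace_toLin'_eq]
    exact hx
  · right
    obtain ⟨F, hF⟩ : ∃ F, F = LinearMap.toMatrix₂' ℂ ω := ⟨_, rfl⟩
    have hFω : Matrix.toBilin' F = ω := by
      rw [hF]
      exact Matrix.toBilin'_toMatrix' ω
    have hdet : F.det ≠ 0 := by
      rw [← hFω] at hnd
      exact (LinearMap.BilinForm.nondegenerate_toBilin'_iff_det_ne_zero).1 hnd
    have hu : IsUnit F := (Matrix.isUnit_iff_isUnit_det F).2 hdet.isUnit
    obtain ⟨⟨F0, Fi, f1, f2⟩, hF0⟩ := hu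
    change F0 = F at hF0
    subst hF0
    refine ⟨F0, Fi, f1, f2, ?_, ?_⟩
    · have e1 : ∀ i j, F0 i j = ω (Pi.single i 1) (Pi.single j 1) := by
        intro i j
        rw [hF]
        exact LinearMap.toMatrix₂'_apply _ _ _
      rcases hω with hω | hω
      · left
        ext i j
        rw [Matrix.transpose_apply, e1, e1]
        exact hω.eq _ _
      · right
        ext i j
        rw [Matrix.transpose_apply, Matrix.neg_apply, e1, e1]
        exact (hω.neg_eq _ _).symm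
    · intro x
      rw [← hmem, hmω, skew_iff98, hFω]
      simp only [Matrix.toLin'_apply]
  · exfalso
    have h4 : Matrix.toLin' h ≠ 0 := fun h5 => h0 ((LinearEquiv.map_eq_zero_iff _).1 h5)
    exact h2 (h3 (Matrix.toLin' h) ((hmem h).2 hh) h4 hE.iSup_eig98)

variable {n : Type*} [Fintype n] [DecidableEq n]
variable {w : ℤ} {Q : Matrix n n ℚ} {S S' : Finset ℤ} {P R : ℤ → Matrix n n ℂ} {Γ : Subgroup (GL n ℂ)}
variable {r : ℕ} {W : Matrix n (Fin r) ℂ} {V : Matrix (Fin r) n ℂ} {e : Matrix n n ℂ}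

/-- **The type of a block.** -/
theorem IsGalU.tyN_crUP (H : IsHW w Q S P) (G : IsGalU w Q S P Γ) (he : IsBlk P e) (hVW : V * W = 1)
    (hWV : W * V = e) (hr : 2 ≤ r) {S1 : Finset ℤ} {R1 : ℤ → Matrix n n ℂ}
    (hR1 : IsHTw w Q S1 Γ R1) (hg : ∀ d : ℕ, (∀ p, d ∣ (e * R1 p).rank) → d = 1)
    (hN : CrUP r (fun p => (e * R1 p).rank)) : TyN (cpS W V (LG Γ)) := by
  classical
  have hne : Nonempty (Fin r) := ⟨⟨0, by omega⟩⟩
  have hT0 : HasHT w Q Γ e := ⟨S1, R1, hR1, hg⟩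
  have hr0 : (r : ℂ) ≠ 0 := by
    have : r ≠ 0 := by omega
    exact_mod_cast this
  obtain ⟨hI, hAr, h9, hcore⟩ := hN
  obtain ⟨A, C⟩ := G.exists_CR hR1 he hVW hWV
  have hAA : ∀ p, A p * A p = A p := fun p => by rw [C.mul, if_pos rfl]
  obtain ⟨t, ht⟩ : ∃ t : ℝ, (V * hR S1 R1 * W).trace = (t : ℂ) * r := by
    refine ⟨(∑ p ∈ S1, (p : ℝ) * (A p).rank) / r, ?_⟩
    rw [C.h, Matrix.trace_sum]
    push_cast
    rw [div_mul_cancel₀ _ hr0]
    refine Finset.sum_congr rfl fun p _ => ?_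
    rw [Matrix.trace_smul, trace_eq_rank (hAA p), smul_eq_mul]
  obtain ⟨E, Λ, hSD, hE, hΛ, hint⟩ := C.exists_sdU t
  obtain ⟨L0, hL0⟩ : ∃ L0 : Submodule ℂ (Matrix (Fin r) (Fin r) ℂ), ∀ y, y ∈ L0 ↔
      (y ∈ cpS W V (LG Γ) ∧ y.trace = 0) := by
    refine ⟨{ carrier := {y | y ∈ cpS W V (LG Γ) ∧ y.trace = 0}, add_mem' := ?_, zero_mem' := ?_,
              smul_mem' := ?_ }, fun y => Iff.rfl⟩
    · rintro a b ⟨ha', ha⟩ ⟨hb', hb⟩
      refine ⟨Submodule.add_mem _ ha' hb', ?_⟩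
      rw [Matrix.trace_add, ha, hb, add_zero]
    · exact ⟨Submodule.zero_mem _, by simp⟩
    · rintro c a ⟨ha', ha⟩
      refine ⟨Submodule.smul_mem _ c ha', ?_⟩
      rw [Matrix.trace_smul, ha, smul_zero]
  have hdec : ∀ y ∈ cpS W V (LG Γ), y - (y.trace / r) • (1 : Matrix (Fin r) (Fin r) ℂ) ∈ L0 := by
    intro y hy
    rw [hL0]
    refine ⟨Submodule.sub_mem _ hy (Submodule.smul_mem _ _ one_cpS), ?_⟩
    rw [Matrix.trace_sub, Matrix.trace_smul, Matrix.trace_one, Fintype.card_fin, smul_eq_mul, div_mul_cancel₀ _ hr0,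
      sub_self]
  have hbr : ∀ X ∈ L0, ∀ Y ∈ L0, X * Y - Y * X ∈ L0 := by
    intro x hx y hy
    rw [hL0] at hx hy ⊢
    refine ⟨G.cpS_br he hVW hWV x hx.1 y hy.1, ?_⟩
    rw [Matrix.trace_sub, Matrix.trace_mul_comm, sub_self]
  have hirr : ∀ U : Submodule ℂ (Fin r → ℂ), (∀ X ∈ L0, ∀ u ∈ U, X *ᵥ u ∈ U) → U = ⊥ ∨ U = ⊤ := by
    intro U hU
    refine G.cpS_irr he hVW hWV hT0 U fun y hy u hu => ?_
    have e1 := hU _ (hdec y hy) u hu
    have e2 : y *ᵥ u = (y - (y.trace / r) • (1 : Matrix (Fin r) (Fin r) ℂ)) *ᵥ u + (y.trace / r) • u := by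
      rw [Matrix.sub_mulVec, Matrix.smul_mulVec, Matrix.one_mulVec, sub_add_cancel]
    rw [e2]
    exact U.add_mem e1 (U.smul_mem _ hu)
  have htr : ∀ X ∈ L0, X.trace = 0 := fun X hX => ((hL0 X).1 hX).2
  have hh : V * hR S1 R1 * W - (t : ℂ) • (1 : Matrix (Fin r) (Fin r) ℂ) ∈ L0 := by
    have e1 := hdec (V * hR S1 R1 * W) (le_cpS ⟨_, hR1.hR_mem, rfl⟩)
    rwa [ht, mul_div_cancel_right₀ _ hr0] at e1
  have hEr : (fun p : ℤ => (E ((p : ℝ) - t)).rank) = fun p => (e * R1 p).rank := by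
    funext p
    rw [hE p, C.rank]
  have hs : Smp L0 := smp_herm98 hbr hirr htr hh hSD t hint (by rw [hEr]; exact hI) (fun d hdd => hg d fun p => by
    by_cases hp : p ∈ S1
    · have h3 := hdd _ (by rw [hΛ]; exact Finset.mem_image_of_mem _ hp)
      rwa [hE, C.rank] at h3
    · rw [hR1.supp p hp, Matrix.mul_zero, Matrix.rank_zero]
      exact dvd_zero d)
  have h0 : V * hR S1 R1 * W - (t : ℂ) • (1 : Matrix (Fin r) (Fin r) ℂ) ≠ 0 := by
    intro h0
    have h1 : ∀ p : ℤ, A p ≠ 0 → (p : ℝ) = t := by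
      intro p hp
      have h2 : ((p : ℂ) - (t : ℂ)) • A p = 0 := by
        have h3 : V * hR S1 R1 * W * A p = (p : ℂ) • A p := by
          rw [C.h, Finset.sum_mul]
          have hpS : p ∈ S1 := by
            by_contra h4
            exact hp (C.supp p h4)
          rw [Finset.sum_eq_single_of_mem p hpS]
          · rw [smul_mul_assoc, hAA]
          · intro q _ hq
            rw [smul_mul_assoc, C.mul, if_neg hq, smul_zero]
        rw [sub_smul, ← h3]
        have h4 : V * hR S1 R1 * W = (t : ℂ) • (1 : Matrix (Fin r) (Fin r) ℂ) := sub_eq_zero.1 h0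
        rw [h4, smul_mul_assoc, one_mul, sub_self]
      have h3 := (smul_eq_zero.1 h2).resolve_right hp
      have h4 : ((p : ℝ) : ℂ) = (t : ℂ) := by
        push_cast
        exact sub_eq_zero.1 h3
      exact_mod_cast h4
    obtain ⟨p0, hAp⟩ : ∃ p0, A p0 ≠ 0 := by
      by_contra hcon
      push Not at hcon
      have h2 := C.sum
      rw [Finset.sum_eq_zero fun p _ => hcon p] at h2
      have h3 := congrFun (congrFun h2 ⟨0, by omega⟩) ⟨0, by omega⟩
      rw [Matrix.zero_apply, Matrix.one_apply_eq] at h3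
      exact zero_ne_one h3
    refine C.not_one hr hg p0 ?_
    rw [← C.sum]
    have hpS : p0 ∈ S1 := by
      by_contra h4
      exact hAp (C.supp p0 h4)
    refine (Finset.sum_eq_single_of_mem p0 hpS fun q _ hq => ?_).symm
    by_contra h2
    apply hq
    have h3 := (h1 q h2).trans (h1 p0 hAp).symm
    exact_mod_cast h3
  have hPr : ¬ AT.Prog (Matrix.toLin' (V * hR S1 R1 * W - (t : ℂ) • (1 : Matrix (Fin r) (Fin r) ℂ))) := by
    intro hP
    have h3 := hSD.arith14 (a := 1) (b := -t) one_ne_zero (fun μ hμ => by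
      obtain ⟨p, hp⟩ := hint μ hμ
      exact ⟨p, by rw [hp]; ring⟩) (by rw [Fintype.card_fin]; exact hr) hP
    rw [Fintype.card_fin] at h3
    apply hAr
    have h4 : (fun p : ℤ => (E (1 * (p : ℝ) + -t)).rank) = fun p => (e * R1 p).rank := by
      rw [← hEr]
      funext p
      congr 2
      ring
    rwa [h4] at h3
  rcases mat_coreUP hr hbr hirr hs hh h0 hSD hPr hcore with hsl | ⟨F, Fi, f1, f2, hF, hm⟩
  · have h3 : ∀ x : Matrix (Fin r) (Fin r) ℂ, x.trace = 0 → x ∈ cpS W V (LG Γ) := fun x hx => ((hL0 x).1 (hsl x hx)).1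
    exact ⟨Or.inl h3, Or.inl h3⟩
  · refine ⟨Or.inr ⟨F, hF, ⟨⟨F, Fi, f1, f2⟩, rfl⟩, fun x hx => ((hL0 x).1 ((hm x).2 hx)).1, fun y hy => ?_⟩, Or.inr ?_⟩
    · refine ⟨2 * (y.trace / r), ?_⟩
      have e1 := (hm _).1 (hdec y hy)
      rw [Matrix.transpose_sub, Matrix.transpose_smul, Matrix.transpose_one, Matrix.sub_mul, Matrix.mul_sub,
        Matrix.smul_mul, Matrix.mul_smul, Matrix.one_mul, Matrix.mul_one] at e1
      rw [mul_smul, two_smul, ← sub_eq_zero, ← e1]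
      abel
    · rw [Fintype.card_fin]
      exact h9

/-- the core statement outside the exceptional sets -/
theorem coreUP_at {r : ℕ} (h3 : r ∉ PX.Ex3) (h4 : r ∉ AT.Ex4) : CoreUP r := by
  intro L _ hirr
  refine AT.core4p hirr ?_ ?_
  · rwa [Module.finrank_fintype_fun_eq_card, Fintype.card_fin]
  · rwa [Module.finrank_fintype_fun_eq_card, Fintype.card_fin]

/-- the condition on a block outside the exceptional sets -/
theorem crUP_at {r : ℕ} {h : ℤ → ℕ} (hr : r ∉ ExDim3 ∪ AT.Ex4) (hI : IndecU h) (hA : ¬ Arith r h) : CrUP r h := by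
  have h1 : r ∉ ExDim3 := fun h => hr (Or.inl h)
  have h2 : r ∉ AT.Ex4 := fun h => hr (Or.inr h)
  refine ⟨hI, hA, ?_, coreUP_at (fun h => h1 (Or.inl h)) h2⟩
  by_contra hcon
  exact h1 (Or.inr (Or.inl (by
    change r < 9
    omega)))

end MH
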