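import Pool.Agent.Helper14.AT.MainP
import Pool.Agent.Helper81.AT.FullP

/-!
Project AT (MP_b8862a_ag): blocks of rank outside the exceptional set are of full type, form with arithmetic progressions.
-/

open Matrix Module GH

namespace MH

theorem fullP_at : FullP (ExDim3 ∪ AT.Ex4) := by
  intro n _ _ w Q S P H Γ G e he r W V hVW hWV hr S' R hR hg hA hI hE
  exact G.tyN_crUP H he hVW hWV hr hR hg (crUP_at hE hI hA)

end MH
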